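import Pool.Agent.MP_249f74_an.H85.Aff
import Pool.Agent.MP_249f74_an.H91.Dev

/-!
The case of a developable second mirror.
-/

namespace Pool.Agent.MP_249f74_an.H85

variable {k C ι : Type} [Field k] [Algebra k ℝ] [Field C] [Algebra k C] [Fintype ι] [DecidableEq ι]
  [IsAlgClosed C] [CharZero C]

theorem dev : H18.DEV k C ι :=
  H91.dev_of fun _ _ _ _ _ _ _ _ _ _ hd hx h1 h2 a b c d e f _ _ i =>
    core_aff hd hx h1 h2 a b c d e f i

end Pool.Agent.MP_249f74_an.H85
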