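import Pool.Agent.MP_249f74_an.H74.Defs

/-!
Two hyperplanes of a one parameter family through a moving point.
-/

open Matrix

namespace Pool.Agent.MP_249f74_an.H85

open H17 (Der)
open H2 (KrS mem_KrS)
open H74 (cv ee ld1 par2)
open H90 (dv dv_apply dv_dot dv_sub dv_add dv_smul dv_br dot_mem)

variable {C Ω κ : Type} [Field C] [Field Ω] [Algebra C Ω] [Fintype κ] [DecidableEq κ]

/-- The tensor product of two vectors. -/
def tn (a b : κ → Ω) : κ × κ → Ω := fun p => a p.1 * b p.2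

omit [DecidableEq κ] in
lemma tn_dot (a b u v : κ → Ω) : tn a b ⬝ᵥ tn u v = a ⬝ᵥ u * b ⬝ᵥ v := by
  simp only [tn, dotProduct, Fintype.sum_prod_type, Finset.sum_mul_sum]
  exact Finset.sum_congr rfl fun _ _ => Finset.sum_congr rfl fun _ _ => by ring

omit [Fintype κ] [DecidableEq κ] in
lemma dv_tn (a b : κ → Ω) (D : Der C Ω) : dv (tn a b) D = tn (dv a D) b + tn a (dv b D) := by
  ext p; simp [tn]; ring

variable [IsAlgClosed C] [CharZero Ω]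

theorem core {E : Matrix κ κ C} (hE : E.IsSymm) {q T A K : κ → Ω} {o : κ} (ao : A o = 1)
    (T0 : T ≠ 0) (tq : T ⬝ᵥ q = 0) (aq : A ⬝ᵥ q = 0) (kq : K ⬝ᵥ q = 0)
    (tan : ∀ D : Der C Ω, T ⬝ᵥ dv q D = 0)
    (sur : ∀ w, T ⬝ᵥ w = 0 → ∃ (D : Der C Ω) (r : Ω), dv q D = w + r • q)
    (ka : ∀ D : Der C Ω, A ⬝ᵥ dv q D = 0 → dv A D = 0)
    (kk : ∀ D : Der C Ω, K ⬝ᵥ dv q D = 0 → dv K D = 0)
    (bad : ∀ (D : Der C Ω) w, A ⬝ᵥ dv q D = 0 → T ⬝ᵥ w = 0 → A ⬝ᵥ w = 0 → dv T D ⬝ᵥ w = 0)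
    (ek : ee E K T = 0) (ea : ee E A A ≠ 0)
    (rel : ∀ c : κ × κ → C, tn K K ⬝ᵥ cv Ω c = 0 → tn A A ⬝ᵥ cv Ω c = 0)
    {D1 : Der C Ω} (d1 : K ⬝ᵥ dv q D1 = 0) (d2 : A ⬝ᵥ dv q D1 ≠ 0) : ee E A T = 0 := by
  have dq : ∀ (V : κ → Ω) (D : Der C Ω), V ⬝ᵥ q = 0 → dv V D ⬝ᵥ q = -(V ⬝ᵥ dv q D) :=
    fun V D h => by
      have := dv_dot V q D
      rw [h, map_zero] at this
      linear_combination -this
  obtain ⟨i0, hi⟩ : ∃ i, D1 (A i) ≠ 0 := by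
    by_contra! hn
    exact d2 (neg_eq_zero.1 (by rw [← dq A D1 aq, show dv A D1 = 0 from funext hn, zero_dotProduct]))
  obtain ⟨D0, f1, f2, f3⟩ : ∃ D0 : Der C Ω, dv K D0 = 0 ∧ A ⬝ᵥ dv q D0 ≠ 0 ∧ D0 (A i0) = 1 :=
    ⟨(D1 (A i0))⁻¹ • D1, by rw [map_smul, kk D1 d1, smul_zero], by simpa [hi] using d2,
      by simp [hi]⟩
  have ka' : ∀ D : Der C Ω, dv A D = 0 → A ⬝ᵥ dv q D = 0 := fun D h =>
    neg_eq_zero.1 (by rw [← dq A D aq, h, zero_dotProduct])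
  have f4 : ∀ D : Der C Ω, dv A (D - D (A i0) • D0) = 0 := fun D => by
    have h := ka (D - (A ⬝ᵥ dv q D / A ⬝ᵥ dv q D0) • D0) (by simp [f2])
    have h' : D (A i0) = A ⬝ᵥ dv q D / A ⬝ᵥ dv q D0 := by
      simpa [f3, sub_eq_zero] using congrFun h i0
    rwa [h']
  obtain ⟨L, hL⟩ : ∃ L : IntermediateField C Ω,
      ∀ a, a ∈ L ↔ ∀ D : Der C Ω, dv A D = 0 → D a = 0 := ⟨KrS {D | dv A D = 0}, fun _ => mem_KrS⟩
  have l0 : ∀ {V : κ → Ω} {D : Der C Ω}, (∀ i, V i ∈ L) → dv A D = 0 → dv V D = 0 :=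
    fun h hD => funext fun i => (hL _).1 (h i) _ hD
  have l1 : ∀ a ∈ L, D0 a ∈ L := fun a ha => (hL _).2 fun D hD => by
    have h := f4 ⁅D, D0⁆
    rw [H96.br_apply, f3, show D (A i0) = 0 from congrFun hD i0] at h
    simpa [H96.br_apply, (hL a).1 ha D hD] using (hL a).1 ha _ h
  have ld : ∀ {α : Type} [Fintype α] {a b Z : α → Ω}, dv a D0 = 0 → (∀ i, b i ∈ L) → a ⬝ᵥ b = 0 →
      (∀ c : α → C, a ⬝ᵥ cv Ω c = 0 → Z ⬝ᵥ cv Ω c = 0) → Z ⬝ᵥ b = 0 := fun h1 h2 h3 h4 =>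
    ld1 (fun D => ⟨D (A i0) • D0, by rw [map_smul, h1, smul_zero], by
      rw [eq_comm, ← sub_eq_zero, ← map_sub]
      exact funext fun i => (hL _).1 (h2 i) _ (f4 D)⟩) h3 h4
  have lA : ∀ i, A i ∈ L := fun i => (hL _).2 fun D hD => congrFun hD i
  obtain ⟨o2, ho⟩ : ∃ o2, (T - T o • A) o2 ≠ 0 := Function.ne_iff.1 fun e => by
    have h := tan D0
    rw [sub_eq_zero.1 e, smul_dotProduct, smul_eq_mul, mul_eq_zero, or_iff_left f2] at h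
    exact T0 (by rw [sub_eq_zero.1 e, h, zero_smul])
  obtain ⟨a, c, B, c0, hT, b1, b2⟩ : ∃ (a c : Ω) (B : κ → Ω), c ≠ 0 ∧ T = a • A + c • B ∧ B o = 0 ∧
      B o2 = 1 := ⟨T o, _, ((T - T o • A) o2)⁻¹ • (T - T o • A), ho,
    by rw [smul_smul, mul_inv_cancel₀ ho]; simp, by simp [ao], inv_mul_cancel₀ ho⟩
  have tw : ∀ w, T ⬝ᵥ w = a * A ⬝ᵥ w + c * B ⬝ᵥ w := fun w => by simp [hT]
  have bq : B ⬝ᵥ q = 0 := by simpa [tq, aq, c0] using tw q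
  have lB : ∀ i, B i ∈ L := fun i => (hL _).2 fun D hD => by
    obtain ⟨s, t, h⟩ := par2 (T := A) (H := B) (K := dv B D) fun w h1 h2 => by
      have := bad D w (ka' D hD) (by simp [tw, h1, h2]) h1
      simpa [hT, dv_add, dv_smul, hD, h1, h2, c0] using this
    have h1 : s = 0 := by simpa [ao, b1] using (congrFun h o).symm
    have h2 : t = 0 := by simpa [h1, b2] using (congrFun h o2).symm
    simpa [h1, h2] using congrFun h i
  have lA' : ∀ i, dv A D0 i ∈ L := fun i => l1 _ (lA i)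
  have lB' : ∀ i, dv B D0 i ∈ L := fun i => l1 _ (lB i)
  have lE : ∀ {V : κ → Ω}, (∀ i, V i ∈ L) → ∀ i, (E.map (algebraMap C Ω) *ᵥ V) i ∈ L :=
    fun h i => dot_mem (fun j => L.algebraMap_mem _) h
  have aq' := dq A D0 aq
  have e0 : a * dv A D0 ⬝ᵥ q + c * dv B D0 ⬝ᵥ q = 0 := by
    rw [aq', dq B D0 bq]; linear_combination tw (dv q D0) - tan D0
  have rel' : ∀ c : κ × κ → C, tn K K ⬝ᵥ cv Ω c = 0 →
      (tn (dv A D0) A + tn A (dv A D0)) ⬝ᵥ cv Ω c = 0 := fun c h => by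
    have := dv_dot (tn A A) (cv Ω c) D0
    rwa [rel c h, map_zero, H74.dv_cv, dotProduct_zero, add_zero, dv_tn, eq_comm] at this
  generalize dv A D0 = A' at *
  generalize dv B D0 = B' at *
  have e1 : ∀ w, A ⬝ᵥ w = 0 → B ⬝ᵥ w = 0 → K ⬝ᵥ w = 0 →
      ee E K B * A' ⬝ᵥ w - ee E K A * B' ⬝ᵥ w = 0 := fun w h1 h2 h3 => by
    obtain ⟨D, r, hD⟩ := sur w (by simp [tw, h1, h2])
    have h4 := ka D (by simp [hD, h1, aq])
    have h5 := kk D (by simp [hD, h3, kq])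
    have h6 : ee E K B * A' ⬝ᵥ q - ee E K A * B' ⬝ᵥ q = 0 := by
      rw [hT, H74.ee_add, H74.ee_smul, H74.ee_smul] at ek
      refine mul_left_cancel₀ c0 ?_
      linear_combination (A' ⬝ᵥ q) * ek - ee E K A * e0
    have h7 := congrArg D h6
    simp only [map_sub, Derivation.leibniz, H74.der_ee, dv_dot, h4, h5, l0 lB h4, l0 lA' h4,
      l0 lB' h4, hD, H74.ee_zero, H74.ee_symm hE 0, dotProduct_add, dotProduct_smul, smul_eq_mul,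
      zero_dotProduct, map_zero] at h7
    linear_combination h7 - r * h6
  have e2 : ∀ u v : κ → Ω, (∀ i, u i ∈ L) → (∀ i, v i ∈ L) → A ⬝ᵥ u = 0 → B ⬝ᵥ u = 0 →
      A ⬝ᵥ v = 0 → B ⬝ᵥ v = 0 → A' ⬝ᵥ u * B' ⬝ᵥ v = A' ⬝ᵥ v * B' ⬝ᵥ u :=
    fun u v lu lv u1 u2 v1 v2 => by
    have h := ld (b := tn (E.map (algebraMap C Ω) *ᵥ B) ((A' ⬝ᵥ u) • v - (A' ⬝ᵥ v) • u) -
      tn (E.map (algebraMap C Ω) *ᵥ A) ((B' ⬝ᵥ u) • v - (B' ⬝ᵥ v) • u))
      (show dv (tn K K) D0 = 0 by rw [dv_tn, f1]; ext; simp [tn]) (fun p => sub_mem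
        (mul_mem (lE lB _) (sub_mem (mul_mem (dot_mem lA' lu) (lv _))
          (mul_mem (dot_mem lA' lv) (lu _))))
        (mul_mem (lE lA _) (sub_mem (mul_mem (dot_mem lB' lu) (lv _))
          (mul_mem (dot_mem lB' lv) (lu _))))) (by
        have := e1 ((K ⬝ᵥ v) • u - (K ⬝ᵥ u) • v) (by simp [u1, v1]) (by simp [u2, v2])
          (by simp [mul_comm])
        simp only [dotProduct_sub, tn_dot, dotProduct_smul, smul_eq_mul, ee] at this ⊢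
        linear_combination this) rel'
    simp only [dotProduct_sub, add_dotProduct, tn_dot, dotProduct_smul, smul_eq_mul, u1, v1] at h
    refine mul_left_cancel₀ ea ?_
    rw [ee]
    linear_combination h
  have e3 : ∀ u v : κ → Ω, A ⬝ᵥ u = 0 → B ⬝ᵥ u = 0 → A ⬝ᵥ v = 0 → B ⬝ᵥ v = 0 →
      A' ⬝ᵥ u * B' ⬝ᵥ v = A' ⬝ᵥ v * B' ⬝ᵥ u := fun u v u1 u2 v1 v2 => by
    let y : κ → κ → Ω := fun i =>
      Pi.single i 1 - B i • Pi.single o2 1 - (A i - A o2 * B i) • Pi.single o 1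
    have s1 : ∀ i j, (Pi.single i 1 : κ → Ω) j ∈ L := fun i j => by
      rw [Pi.single_apply]; split_ifs; exacts [one_mem _, zero_mem _]
    have y0 : ∀ i j, y i j ∈ L := fun i j => sub_mem (sub_mem (s1 i j) (mul_mem (lB i) (s1 _ j)))
      (mul_mem (sub_mem (lA i) (mul_mem (lA _) (lB i))) (s1 _ j))
    have y1 : ∀ i, A ⬝ᵥ y i = 0 := fun i => by simp [y, ao]; ring
    have y2 : ∀ i, B ⬝ᵥ y i = 0 := fun i => by simp [y, b1, b2]
    have y3 : ∀ U w : κ → Ω, A ⬝ᵥ w = 0 → B ⬝ᵥ w = 0 → U ⬝ᵥ w = ∑ i, w i * U ⬝ᵥ y i :=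
      fun U w h1 h2 => by
        have : ∑ i, w i * U ⬝ᵥ y i = (U - U o2 • B - U o • (A - A o2 • B)) ⬝ᵥ w :=
          Finset.sum_congr rfl fun i _ => by simp [y]; ring
        simp [this, h1, h2]
    rw [y3 A' u u1 u2, y3 B' v v1 v2, y3 A' v v1 v2, y3 B' u u1 u2, Finset.sum_mul_sum,
      Finset.sum_mul_sum, Finset.sum_comm]
    exact Finset.sum_congr rfl fun i _ => Finset.sum_congr rfl fun j _ => by
      linear_combination u j * v i * e2 _ _ (y0 j) (y0 i) (y1 j) (y2 j) (y1 i) (y2 i)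
  have a0 : A' ⬝ᵥ q ≠ 0 := aq' ▸ neg_ne_zero.2 f2
  have lr : B' ⬝ᵥ q / A' ⬝ᵥ q ∈ L := (hL _).2 fun D hD => by
    have h1 := ka' D hD
    have h2 : B ⬝ᵥ dv q D = 0 := by simpa [tan, h1, c0] using tw (dv q D)
    rw [Derivation.leibniz_div, dv_dot, dv_dot, l0 lA' hD, l0 lB' hD]
    simp only [zero_dotProduct, zero_add, smul_eq_mul]
    linear_combination (A' ⬝ᵥ q)⁻¹ ^ 2 * e3 _ _ aq bq h1 h2
  have e4 : T = c • (B - (B' ⬝ᵥ q / A' ⬝ᵥ q) • A) := by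
    have : a = -(c * (B' ⬝ᵥ q / A' ⬝ᵥ q)) := by field_simp; linear_combination e0
    rw [hT, this]; module
  rw [e4, H74.ee_smul] at ek ⊢
  refine mul_eq_zero_of_right _ (ld f1 (lE fun i => sub_mem (lB i) (mul_mem lr (lA i)))
    ((mul_eq_zero.1 ek).resolve_left c0) fun c h => ?_)
  have e5 : cv Ω (fun p : κ × κ => c p.1 * (Pi.single o 1 : κ → C) p.2) =
      tn (cv Ω c) (Pi.single o 1) := by
    rw [← H74.cv_single (C := C) (Ω := Ω)]; exact funext fun _ => map_mul ..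
  have e6 := rel _ (by rw [e5, tn_dot, h, zero_mul])
  rwa [e5, tn_dot, dotProduct_single_one, ao, mul_one] at e6

end Pool.Agent.MP_249f74_an.H85
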