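import Pool.Agent.MP_249f74_an.H85.Kill
import Pool.Agent.MP_249f74_an.H85.Core

/-!
One orthogonal tangent hyperplane that is not asymptotic forces all of them to be orthogonal.
-/

open Matrix hiding J vec
open MvPolynomial hiding funext

namespace Pool.Agent.MP_249f74_an.H85

open H17 (Der)
open H17.Cm (grad tv tg hat vec sp J)
open H18 (Dev Hs)
open H32 (Mir)
open H74 (GenK hs cv)
open H90 (dv dv_dot dv_smul)

variable {k C Ω ι : Type} [Field k] [Algebra k ℝ] [Field C] [Algebra k C] [Field Ω] [Algebra C Ω]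
  [Fintype ι] [DecidableEq ι] {m m' : Mir k C ι} {x p1 p2 u : ι → Ω}

omit [Fintype ι] [DecidableEq ι] in
lemma dv_nrm {κ : Type} {V : κ → Ω} {D : Der C Ω} {c : Ω} (h : dv V D = c • V) (o : κ) :
    dv ((V o)⁻¹ • V) D = 0 := by
  have : D (V o) = c * V o := congrFun h o
  by_cases e : V o = 0
  · simp [e, H90.dv_zero]
  rw [dv_smul, h, Derivation.leibniz_inv, this, smul_smul, ← add_smul]
  exact smul_eq_zero_of_left (by simp only [smul_eq_mul]; field_simp; ring) _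

lemma tv_vec (F : MvPolynomial ι C) (p a : ι → Ω) : tv F p ⬝ᵥ vec a = grad F p ⬝ᵥ a := by
  rw [dotProduct_comm, H17.Cm.vec_dot, dotProduct_comm]; rfl

lemma tv_hat (F : MvPolynomial ι C) (p x : ι → Ω) : tv F p ⬝ᵥ hat x = grad F p ⬝ᵥ (x - p) := by
  rw [dotProduct_comm, H17.Cm.hat_tv]

lemma tn_tv (g : MvPolynomial ι C) (p : ι → Ω) (s : Ω) (c : Option ι × Option ι → C) :
    tn (s • tv g p) (s • tv g p) ⬝ᵥ cv Ω c =
      s * s * aeval p (∑ o, tg g o.1 * tg g o.2 * MvPolynomial.C (c o)) := by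
  simp only [tn, tv, dotProduct, map_sum, map_mul, Finset.mul_sum, aeval_C, H74.cv_apply,
    Pi.smul_apply, smul_eq_mul]
  exact Finset.sum_congr rfl fun _ _ => by ring

theorem core_aff [IsAlgClosed C] [CharZero C] (hd : Dev m'.f) (hx : m.On x) (h1 : m'.On p1)
    (h2 : m'.On p2) (a1 : grad m'.f p1 ⬝ᵥ (x - p1) = 0) (a2 : grad m'.f p2 ⬝ᵥ (x - p2) = 0)
    (o1 : grad m'.f p1 ⬝ᵥ grad m.f x = 0) (u0 : grad m.f x ⬝ᵥ u = 0)
    (u1 : grad m'.f p1 ⬝ᵥ u = 0) (u2 : Hs m.f x u u ≠ 0)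
    (bad : ∀ a, grad m.f x ⬝ᵥ a = 0 → grad m'.f p2 ⬝ᵥ a = 0 → Hs m.f x a a = 0) :
    grad m'.f p2 ⬝ᵥ grad m.f x = 0 := by
  have : CharZero Ω := charZero_of_injective_algebraMap (algebraMap C Ω).injective
  have gx : GenK m.f x := hx
  obtain ⟨e, he⟩ := Function.ne_iff.1 h2.grad_ne
  have s2 : tv m'.f p2 (some e) ≠ 0 := he
  have s1 : tv m'.f p1 (some e) ≠ 0 := fun h => s2 ((h2 _).2 ((h1 _).1 h))
  have dh : ∀ D : Der C Ω, dv (hat x) D = vec (dv x D) := fun D => H17.Cm.der_hat D x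
  have sp0 : ∀ w : Option ι → Ω, w = w none • hat x + vec (sp w - w none • x) := fun w => by
    ext (_ | i) <;> simp [hat, vec, sp]
  have sp1 : ∀ (F : MvPolynomial ι C) (p : ι → Ω) w, grad F p ⬝ᵥ (x - p) = 0 → tv F p ⬝ᵥ w = 0 →
      grad F p ⬝ᵥ (sp w - w none • x) = 0 := fun F p w h h' => by
    rwa [sp0 w, dotProduct_add, dotProduct_smul, tv_hat, h, smul_zero, zero_add, tv_vec] at h'
  have t0 : grad m.f x ⬝ᵥ (x - x) = 0 := by simp
  obtain ⟨D1, d1⟩ := gx.sur m.prime u0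
  obtain ⟨D2, d2⟩ := gx.sur m.prime ((dotProduct_comm ..).trans o1)
  have u3 : grad m'.f p2 ⬝ᵥ u ≠ 0 := fun h => u2 (bad u u0 h)
  have := core (E := J ι C) H17.Cm.J_symm (q := hat x) (T := tv m.f x)
    (A := (tv m'.f p2 (some e))⁻¹ • tv m'.f p2) (K := (tv m'.f p1 (some e))⁻¹ • tv m'.f p1)
    (o := some e) (inv_mul_cancel₀ s2) (fun h => hx.grad_ne (congrArg sp h))
    (by rw [tv_hat, t0]) (by simp [tv_hat, a2]) (by simp [tv_hat, a1])
    (fun D => by rw [dh, tv_vec, gx.tan]) (fun w h => ?_) (fun D h => ?_) (fun D h => ?_)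
    (fun D w b1 b2 b3 => ?_) (by simp [H74.ee_J, H17.Cm.sp_tv, o1])
    (by simpa [H74.ee_J, H17.Cm.sp_tv, s2] using h2.nn) (fun c h => ?_) (D1 := D1)
    (by simp [dh, tv_vec, d1, u1]) (by simp [dh, tv_vec, d1, u3, s2])
  · simpa [H74.ee_J, H17.Cm.sp_tv, s2] using this
  · obtain ⟨D, hD⟩ := gx.sur m.prime (sp1 _ _ w t0 h)
    exact ⟨D, -w none, by rw [dh, hD]; nth_rewrite 3 [sp0 w]; module⟩
  · obtain ⟨c, hc⟩ := kill hd h2 h2.grad_ne a2 (d1 ▸ u3) (θ := D) (by simpa [dh, tv_vec, s2] using h)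
    exact dv_nrm hc _
  · obtain ⟨c, hc⟩ := kill hd h1 h1.grad_ne a1 (θ0 := D2) (by rw [d2]; exact h1.nn) (θ := D)
      (by simpa [dh, tv_vec, s1] using h)
    exact dv_nrm hc _
  · have b4 : grad m'.f p2 ⬝ᵥ dv x D = 0 := by simpa [dh, tv_vec, s2] using b1
    have b5 := sp1 _ _ w t0 b2
    have b6 := sp1 _ _ w a2 (by simpa [s2] using b3)
    have b7 := dv_dot (tv m.f x) (hat x) D
    rw [tv_hat, t0, map_zero, dh, tv_vec, gx.tan, add_zero] at b7
    rw [sp0 w, dotProduct_add, dotProduct_smul, ← b7, smul_zero, zero_add, dotProduct_comm,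
      H17.Cm.vec_dot, show sp (dv (tv m.f x) D) = _ from H74.dv_grad D x m.f]
    generalize sp w - w none • x = a at *
    have b8 := bad (a + dv x D) (by rw [dotProduct_add, b5, gx.tan, add_zero])
      (by rw [dotProduct_add, b6, b4, add_zero])
    have b9 := bad a b5 b6
    have b10 := bad _ (gx.tan D) b4
    simp only [Hs_eq, mulVec_add, dotProduct_add, add_dotProduct,
      H74.symm_dot (H74.hs_symm m.f x) (dv x D) a] at b8 b9 b10
    linear_combination (b8 - b9 - b10) / 2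
  · rw [tn_tv, mul_eq_zero, or_iff_right (mul_ne_zero (inv_ne_zero s1) (inv_ne_zero s1))] at h
    rw [tn_tv, (h2 _).2 ((h1 _).1 h), mul_zero]

end Pool.Agent.MP_249f74_an.H85
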