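import Pool.Agent.MP_249f74_an.H18.Base
import Pool.Agent.MP_249f74_an.H74.Hom

/-!
Tangent hyperplanes of a developable hypersurface through a moving point.
-/

open Matrix
open MvPolynomial hiding funext

namespace Pool.Agent.MP_249f74_an.H85

open H17 (Der)
open H17.Cm (grad tv hat sp)
open H18 (Dev Hs)
open H74 (GenK hs)
open H90 (dv dv_dot dv_sub)

variable {C Ω ι : Type} [Field C] [Field Ω] [Algebra C Ω] [Fintype ι] [DecidableEq ι]
  {g : MvPolynomial ι C} {x y : ι → Ω}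

omit [DecidableEq ι] in
lemma Hs_eq (g : MvPolynomial ι C) (y a b : ι → Ω) : Hs g y a b = a ⬝ᵥ hs g y *ᵥ b := by
  simp only [Hs, hs, dotProduct, mulVec, of_apply, Finset.mul_sum]
  exact Finset.sum_congr rfl fun i _ => Finset.sum_congr rfl fun j _ => by ring

lemma tv_none (g : MvPolynomial ι C) (y : ι → Ω) : tv g y none = -(y ⬝ᵥ grad g y) := by
  have := H17.Cm.hat_tv g y y
  rw [H17.Cm.hat_dot, H17.Cm.sp_tv, sub_self, dotProduct_zero] at this
  linear_combination this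

/-- The normal direction is killed. -/
theorem kill0 (hd : Dev g) (hy : GenK g y) (hn : grad g y ≠ 0) (h0 : grad g y ⬝ᵥ (x - y) = 0)
    {θ0 θ : Der C Ω} (h1 : grad g y ⬝ᵥ dv x θ0 ≠ 0) (h2 : grad g y ⬝ᵥ dv x θ = 0) :
    ∃ c : Ω, dv (grad g y) θ = c • grad g y := by
  have e : ∀ θ : Der C Ω, (x - y) ⬝ᵥ hs g y *ᵥ dv y θ = -(grad g y ⬝ᵥ dv x θ) := fun θ => by
    have := dv_dot (grad g y) (x - y) θ
    rw [h0, map_zero, H74.dv_grad, dv_sub, dotProduct_sub _ (dv x θ), hy.tan] at this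
    rw [dotProduct_comm]
    linear_combination -this
  have d : ∀ a b, grad g y ⬝ᵥ a = 0 → grad g y ⬝ᵥ b = 0 →
      (a ⬝ᵥ hs g y *ᵥ a) * (b ⬝ᵥ hs g y *ᵥ b) = (a ⬝ᵥ hs g y *ᵥ b) ^ 2 := fun a b ha hb => by
    simpa only [Hs_eq] using hd Ω y a b hy.zero hn ha hb
  have a1 := d _ _ h0 (hy.tan θ0)
  have a2 := d _ _ h0 (hy.tan θ)
  rw [e] at a1 a2
  rw [h2, neg_zero, zero_pow two_ne_zero, mul_eq_zero, or_iff_right
    (left_ne_zero_of_mul (a1 ▸ pow_ne_zero 2 (neg_ne_zero.2 h1)))] at a2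
  rw [H74.dv_grad]
  refine H74.par1 fun w hw => ?_
  have := d _ _ hw (hy.tan θ)
  rw [a2, mul_zero, eq_comm, pow_eq_zero_iff two_ne_zero] at this
  rwa [dotProduct_comm]

/-- The tangent hyperplane is killed. -/
theorem kill (hd : Dev g) (hy : GenK g y) (hn : grad g y ≠ 0) (h0 : grad g y ⬝ᵥ (x - y) = 0)
    {θ0 θ : Der C Ω} (h1 : grad g y ⬝ᵥ dv x θ0 ≠ 0) (h2 : grad g y ⬝ᵥ dv x θ = 0) :
    ∃ c : Ω, dv (tv g y) θ = c • tv g y := by
  obtain ⟨c, hc⟩ := kill0 hd hy hn h0 h1 h2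
  refine ⟨c, funext fun o => ?_⟩
  cases o with
  | none =>
    change θ (tv g y none) = c * tv g y none
    rw [tv_none, map_neg, dv_dot, hc, dotProduct_comm, hy.tan]
    simp
  | some i => exact congrFun hc i

end Pool.Agent.MP_249f74_an.H85
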